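import Mathlib
import Pool.Agent.H41.HZ.Stm

/-!
# Project HZ, module BLK: the block estimate
-/

set_option autoImplicit false

namespace Pool.Agent.H22.HZ

open MeasureTheory Filter Topology ProbabilityTheory
open Pool.Agent.H34.ND (Free firstAfter)
open Pool.Agent.H41.LD (Past)
open Pool.Agent.H41.HZ

section

variable {Ω : Type} {E : ℕ → Set Ω}

theorem past_mem {k m : ℕ} (h : k ≤ m) : MeasurableSet[Past E m] (E k) :=
  MeasurableSpace.measurableSet_generateFrom ⟨k, h, rfl⟩

theorem past_mono {a b : ℕ} (h : a ≤ b) : Past E a ≤ Past E b := by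
  refine MeasurableSpace.generateFrom_le ?_
  rintro s ⟨k, hk, rfl⟩
  exact past_mem (hk.trans h)

theorem free_eq (a b : ℕ) : Free E a b = ⋂ n ∈ Finset.Ioc a b, (E n)ᶜ := by
  ext ω
  simp only [Free, Set.mem_ofPred_eq, Set.mem_iInter, Finset.mem_Ioc, Set.mem_compl_iff]
  exact ⟨fun h n hn => h n hn.1 hn.2, fun h n h1 h2 => h n ⟨h1, h2⟩⟩

theorem past_free {a b m : ℕ} (h : b ≤ m) : MeasurableSet[Past E m] (Free E a b) := by
  rw [free_eq]
  refine Finset.measurableSet_biInter _ fun n hn => ?_
  exact MeasurableSet.compl (past_mem ((Finset.mem_Ioc.1 hn).2.trans h))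

theorem past_hit {x g m : ℕ} (h : x + 2 * g ≤ m) : MeasurableSet[Past E m] (hit E x g) := by
  unfold hit
  refine Finset.measurableSet_biUnion _ fun n hn => ?_
  have h1 := Finset.mem_Ioc.1 hn
  refine MeasurableSet.inter (MeasurableSet.inter ?_ ?_) (MeasurableSet.compl ?_)
  · exact past_free (by omega)
  · exact past_mem (by omega)
  · exact past_free (by omega)

end

/-- **Module BLK.** -/
theorem blk : S_BLK := by
  intro Ω _ P _ E hE x g N q hq0 hq1 hg h
  have hle : ∀ m, Past E m ≤ (inferInstance : MeasurableSpace Ω) := by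
    intro m
    refine MeasurableSpace.generateFrom_le ?_
    rintro s ⟨k, -, rfl⟩
    exact hE k
  induction N with
  | zero => simp
  | succ N ih =>
    have ih' := ih fun n h1 h2 => h n h1 (h2.trans (by nlinarith))
    obtain ⟨G, hG⟩ : ∃ G, G = ⋂ i ∈ Finset.range N, hit E (x + 2 * g * i) g := ⟨_, rfl⟩
    obtain ⟨x', hx'⟩ : ∃ x', x' = x + 2 * g * N := ⟨_, rfl⟩
    have hGm : MeasurableSet[Past E x'] G := by
      rw [hG]
      refine Finset.measurableSet_biInter _ fun i hi => past_hit ?_
      rw [hx']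
      have h1 : i + 1 ≤ N := Finset.mem_range.1 hi
      nlinarith
    have hsplit : ⋂ i ∈ Finset.range (N + 1), hit E (x + 2 * g * i) g = G ∩ hit E x' g := by
      rw [Finset.range_add_one, Finset.set_biInter_insert, ← hG, ← hx', Set.inter_comm]
    obtain ⟨C, hC⟩ : ∃ C : ℕ → Set Ω, ∀ n, C n = G ∩ (Free E x' (n - 1) ∩ E n) :=
      ⟨_, fun _ => rfl⟩
    have hCm : ∀ n ∈ Finset.Ioc x' (x' + g), MeasurableSet[Past E n] (C n) := by
      intro n hn
      have h1 := Finset.mem_Ioc.1 hn
      rw [hC]
      refine MeasurableSet.inter ?_ (MeasurableSet.inter (past_free (by omega)) (past_mem le_rfl))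
      exact past_mono h1.1.le _ hGm
    have hCm' : ∀ n ∈ Finset.Ioc x' (x' + g), MeasurableSet (C n) := fun n hn =>
      hle n _ (hCm n hn)
    have hFm : ∀ n, MeasurableSet (Free E n (n + g)) := fun n => hle (n + g) _ (past_free le_rfl)
    have h2 : G ∩ hit E x' g = ⋃ n ∈ Finset.Ioc x' (x' + g), C n ∩ (Free E n (n + g))ᶜ := by
      unfold hit
      rw [Set.inter_iUnion₂]
      refine Set.iUnion₂_congr fun n _ => ?_
      rw [hC, Set.inter_assoc G]
    have h3 : ∀ n ∈ Finset.Ioc x' (x' + g),
        P.real (C n ∩ (Free E n (n + g))ᶜ) ≤ (1 - q) * P.real (C n) := by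
      intro n hn
      have h1 := Finset.mem_Ioc.1 hn
      have h4 := h n (by
        have : x ≤ x' := by
          rw [hx']
          exact Nat.le_add_right _ _
        omega) (by
        have : x' + g ≤ x + 2 * g * (N + 1) := by
          rw [hx']
          nlinarith
        omega) (C n) (hCm n hn) (by
        rw [hC]
        exact fun ω hω => hω.2.2)
      have h5 := measureReal_inter_add_sdiff (μ := P) (s := C n) (hFm n)
      rw [Set.sdiff_eq] at h5
      linarith
    have h6 : Set.PairwiseDisjoint (↑(Finset.Ioc x' (x' + g)) : Set ℕ) C := by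
      have h7 : ∀ a ∈ Finset.Ioc x' (x' + g), ∀ b ∈ Finset.Ioc x' (x' + g), a < b →
          Disjoint (C a) (C b) := by
        intro a ha b hb hab
        rw [Set.disjoint_left]
        intro ω h8 h9
        rw [hC] at h8 h9
        exact h9.2.1 a (Finset.mem_Ioc.1 ha).1 (by omega) h8.2.2
      intro a ha b hb hab
      rcases lt_or_gt_of_ne hab with h8 | h8
      · exact h7 a ha b hb h8
      · exact (h7 b hb a ha h8).symm
    have h7 : ∑ n ∈ Finset.Ioc x' (x' + g), P.real (C n) ≤ P.real G := by
      rw [← measureReal_biUnion_finset h6 hCm']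
      refine measureReal_mono ?_
      refine Set.iUnion₂_subset fun n _ => ?_
      rw [hC]
      exact Set.inter_subset_left
    rw [hsplit, h2, pow_succ, mul_comm]
    calc P.real (⋃ n ∈ Finset.Ioc x' (x' + g), C n ∩ (Free E n (n + g))ᶜ)
        ≤ ∑ n ∈ Finset.Ioc x' (x' + g), P.real (C n ∩ (Free E n (n + g))ᶜ) :=
          measureReal_biUnion_finset_le _ _
      _ ≤ ∑ n ∈ Finset.Ioc x' (x' + g), (1 - q) * P.real (C n) := Finset.sum_le_sum h3
      _ = (1 - q) * ∑ n ∈ Finset.Ioc x' (x' + g), P.real (C n) := by rw [Finset.mul_sum]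
      _ ≤ (1 - q) * (1 - q) ^ N := by
        refine mul_le_mul_of_nonneg_left ?_ (by linarith)
        rw [hG] at h7
        exact h7.trans ih'

end Pool.Agent.H22.HZ
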